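import Pool.Agent.Lib.MP_034dba_lc.Main

set_option autoImplicit false

/-!
# It is consistent that the real line is partitioned into `ℵ₁ < 𝔠` Borel translates

The negated form of the question.  A statement about the extension by a poset `P` is given by its
truth value, the predicate on `P` which says which conditions force it.

* Start with any model of ZFC.  By part (1) the countable partial functions from `Ω` to the reals
  force the hypothesis of part (2) (which is equivalent to CH) for some linear order `Ω` with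
  countable initial segments.
* Work in this extension.  By part (2) there is a poset which forces `Tiling Ω F t` for some ground
  model objects `Ω`, `F`, `t`.
* By part (3), a theorem of ZFC applied in the last extension, the real line is partitioned there
  into `κ = #Ω` Borel translates, and `ℵ₀ < κ < 𝔠`.
-/

namespace Pool.Agent.Results.MP_034dba_lc.BorelTranslates

open Cardinal Pool.Agent.Lib.MP_034dba_lc Pool.Agent.Lib.MP_77d395_lc

/-- (1) There is a linear order `Ω` with countable initial segments such that each condition of the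
poset of countable partial functions from `Ω` to the reals forces that the subsets of `ℕ` are listed
as `E_ξ`, `ξ ∈ Ω`.
(2) If there is such a list, then there are a set `Ω`, sets `F j m` of real numbers, real numbers
`t γ` (`γ ∈ Ω`) and a nonempty poset, each condition of which forces `Tiling Ω F t`.
(3) If `Tiling Ω F t` holds, then the real line is partitioned into the Borel sets `B γ`, `γ ∈ Ω`,
which are translates of each other, and `ℵ₀ < #Ω < 𝔠`. -/
theorem result :
    (∃ (Ω : Type) (_ : LinearOrder Ω), (∀ ξ : Ω, (Set.Iio ξ).Countable) ∧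
      ∀ p : Coll Ω, fEnum (Coll Ω) Ω p) ∧
    ((∃ (Ω : Type) (_ : LinearOrder Ω), (∀ ξ : Ω, (Set.Iio ξ).Countable) ∧
        ∃ E : Set (Ω × ℕ), ∀ x : Set ℕ, ∃ ξ : Ω, ∀ n : ℕ, n ∈ x ↔ (ξ, n) ∈ E) →
      ∃ (Ω : Type) (F : ℕ → ℕ → Set ℝ) (t : Ω → ℝ) (P : Type) (_ : Preorder P), Nonempty P ∧
        ∀ p : P, fTiling P Ω F t p) ∧
    ∀ (Ω : Type) (F : ℕ → ℕ → Set ℝ) (t : Ω → ℝ), Tiling Ω F t →
      ∃ B : Ω → Set ℝ, ℵ₀ < #Ω ∧ #Ω < 𝔠 ∧ (∀ γ, MeasurableSet (B γ)) ∧
        (∀ γ β, γ ≠ β → Disjoint (B γ) (B β)) ∧ ⋃ γ, B γ = Set.univ ∧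
        ∀ γ β, ∃ s : ℝ, B β = (fun x => x + s) '' B γ := by
  refine ⟨⟨(ℵ₁ : Cardinal.{0}).ord.ToType, inferInstance, fun ξ => ?_, fun p => ?_⟩, ?_,
    fun Ω F t h => partition_of_tiling h⟩
  · have h := Cardinal.mk_Iio_toType_ord_lt ξ
    rw [Cardinal.lt_aleph_one_iff, Cardinal.mk_le_aleph0_iff] at h
    exact h
  · have : Uncountable (ℵ₁ : Cardinal.{0}).ord.ToType := by
      rw [← Cardinal.aleph0_lt_mk_iff, Cardinal.mk_ord_toType]
      exact Cardinal.aleph0_lt_aleph_one
    exact Coll.fEnum p
  · rintro ⟨Ω, _, hΩ, E, hE⟩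
    have hsurj : Function.Surjective (fun (ξ : Ω) => {n : ℕ | (ξ, n) ∈ E}) := by
      intro x
      obtain ⟨ξ, hξ⟩ := hE x
      exact ⟨ξ, Set.ext fun n => (hξ n).symm⟩
    have h1 : 𝔠 ≤ #Ω := by
      have := Cardinal.mk_le_of_surjective hsurj
      rwa [Cardinal.mk_set, Cardinal.mk_nat, Cardinal.two_power_aleph0] at this
    exact exists_forcing
      (le_antisymm (h1.trans (mk_le_aleph_one hΩ)) Cardinal.aleph_one_le_continuum)

end Pool.Agent.Results.MP_034dba_lc.BorelTranslates
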